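import Mathlib

/-!
# MP_3cee42_co, Q1: not every finite additive poset is plain

On `A = (ZMod 2)^4`, with `[b0,b1,b2,b3]` read as the number `b0 + 2 b1 + 4 b2 + 8 b3`, take the
order whose only relations besides `x ≤ x` and `0 ≤ x` are
`1, 15 ≤ 14`, `4, 6 ≤ 2` and `5, 12 ≤ 9`.
It is an additive poset, `1` is not below `2`, but every order-preserving linear functional `f`
with `f(1) = 1` has `f(2) = 1`.
-/

namespace Pool.Agent.Results.MP_3cee42_co.NotPlain

universe u

/-- An additive poset structure on the abelian group `A`: a partial order `le` with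
`b, c ≤ a → b + c ≤ a` and `a ≤ b, c → a ≤ a + b + c`. -/
structure AdditivePoset (A : Type) [AddCommGroup A] where
  le : A → A → Prop
  refl : ∀ a, le a a
  trans : ∀ a b c, le a b → le b c → le a c
  antisymm : ∀ a b, le a b → le b a → a = b
  add_le : ∀ a b c, le b a → le c a → le (b + c) a
  le_add : ∀ a b c, le a b → le a c → le a (a + b + c)

/-- `φ` is an embedding of the additive poset `P` into the additive powerset `2^I`
(subsets of `I` with symmetric difference and inclusion). -/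
structure IsEmbedding {A : Type} [AddCommGroup A] (P : AdditivePoset A) {I : Type u}
    (φ : A → Set I) : Prop where
  injective : Function.Injective φ
  map_add : ∀ a b, φ (a + b) = symmDiff (φ a) (φ b)
  le_iff : ∀ a b, P.le a b ↔ φ a ⊆ φ b

/-- `P` is plain: it embeds in `2^I` for some finite set `I`. -/
def Plain {A : Type} [AddCommGroup A] (P : AdditivePoset A) : Prop :=
  ∃ (I : Type) (_ : Finite I) (φ : A → Set I), IsEmbedding P φ

/-- The underlying group `(ZMod 2)^4`. -/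
abbrev A0 : Type := ZMod 2 × ZMod 2 × ZMod 2 × ZMod 2

/-- The relation. -/
def le0 (a b : A0) : Prop :=
  a = b ∨ a = 0 ∨ (b = (0, 1, 1, 1) ∧ (a = (1, 0, 0, 0) ∨ a = (1, 1, 1, 1))) ∨
    (b = (0, 1, 0, 0) ∧ (a = (0, 0, 1, 0) ∨ a = (0, 1, 1, 0))) ∨
    (b = (1, 0, 0, 1) ∧ (a = (1, 0, 1, 0) ∨ a = (0, 0, 1, 1)))

instance (a b : A0) : Decidable (le0 a b) := by unfold le0; infer_instance

/-- The additive poset. -/
def P0 : AdditivePoset A0 where
  le := le0
  refl := by decide +kernel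
  trans := by decide +kernel
  antisymm := by decide +kernel
  add_le := by decide +kernel
  le_add := by decide +kernel

theorem no_embedding {I : Type u} (φ : A0 → Set I) : ¬ IsEmbedding P0 φ := by
  rintro ⟨-, hadd, hle⟩
  have h12 : ¬ P0.le (1, 0, 0, 0) (0, 1, 0, 0) := by
    change ¬ le0 _ _
    decide
  rw [hle, Set.not_subset] at h12
  obtain ⟨i, hi1, hi2⟩ := h12
  -- `4 ≤ 2`, `1 ≤ 14`, `5 ≤ 9`
  have h42 : φ (0, 0, 1, 0) ⊆ φ (0, 1, 0, 0) :=
    (hle _ _).mp (by change le0 _ _; decide)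
  have h114 : φ (1, 0, 0, 0) ⊆ φ (0, 1, 1, 1) :=
    (hle _ _).mp (by change le0 _ _; decide)
  have h59 : φ (1, 0, 1, 0) ⊆ φ (1, 0, 0, 1) :=
    (hle _ _).mp (by change le0 _ _; decide)
  have hi4 : i ∉ φ (0, 0, 1, 0) := fun h => hi2 (h42 h)
  have hi14 : i ∈ φ (0, 1, 1, 1) := h114 hi1
  -- `6 = 2 + 4`, `8 = 14 + 6`, `5 = 1 + 4`, `9 = 1 + 8`
  have e6 : φ (0, 1, 1, 0) = symmDiff (φ (0, 1, 0, 0)) (φ (0, 0, 1, 0)) := by
    rw [← hadd]; rfl
  have e8 : φ (0, 0, 0, 1) = symmDiff (φ (0, 1, 1, 1)) (φ (0, 1, 1, 0)) := by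
    rw [← hadd]; rfl
  have e5 : φ (1, 0, 1, 0) = symmDiff (φ (1, 0, 0, 0)) (φ (0, 0, 1, 0)) := by
    rw [← hadd]; rfl
  have e9 : φ (1, 0, 0, 1) = symmDiff (φ (1, 0, 0, 0)) (φ (0, 0, 0, 1)) := by
    rw [← hadd]; rfl
  have hi6 : i ∉ φ (0, 1, 1, 0) := by
    rw [e6, Set.mem_symmDiff]
    tauto
  have hi8 : i ∈ φ (0, 0, 0, 1) := by
    rw [e8, Set.mem_symmDiff]
    tauto
  have hi5 : i ∈ φ (1, 0, 1, 0) := by
    rw [e5, Set.mem_symmDiff]
    tauto
  have hi9 := h59 hi5
  rw [e9, Set.mem_symmDiff] at hi9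
  tauto

/-- **Answer to Q1: no.**  There is an additive poset with `16` elements that is not plain;
indeed it does not embed in `2^I` for any set `I`, finite or infinite. -/
theorem result : ∃ (A : Type) (_ : AddCommGroup A) (_ : Finite A) (P : AdditivePoset A),
    Nat.card A = 16 ∧ ¬ Plain P ∧ ∀ (I : Type u) (φ : A → Set I), ¬ IsEmbedding P φ := by
  refine ⟨A0, inferInstance, inferInstance, P0, ?_, ?_, fun I φ => no_embedding φ⟩
  · rw [Nat.card_eq_fintype_card]
    decide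
  · rintro ⟨I, _, φ, hφ⟩
    exact no_embedding φ hφ

end Pool.Agent.Results.MP_3cee42_co.NotPlain
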